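import Mathlib

/-!
# A hyperbolic (4,6)-distribution germ with Reeb directions which is not flat

On `ℝ⁶` with coordinates `(x₁, y₁, z₁, x₂, y₂, z₂)` the distribution
`D = ker (dz₁ - y₁ dx₁) ∩ ker (dz₂ - y₂ dx₂ - (y₁²/2) dx₁)` is hyperbolic at every point and admits
the Reeb directions `∂_{z₁}, ∂_{z₂}`. One of its two characteristic rank 2 subbundles, spanned by
`∂_{y₁}` and `∂_{x₁} + y₁ ∂_{z₁} + (y₁²/2) ∂_{z₂}`, generates a distribution of rank 4, whereas the
two characteristic subbundles of a product of two contact structures on 3-manifolds generate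
distributions of rank 3.
-/

open scoped ContDiff Topology
open Set

namespace Pool.Agent.Results.MP_08c0df_gt.ReebNotFlat

/-- `ℝ⁶` with coordinates `(x₁, y₁, z₁, x₂, y₂, z₂)`. -/
abbrev E6 : Type := Fin 6 → ℝ

/-- Differential 1-forms on `ℝ⁶`. -/
abbrev Form1 : Type := E6 → (E6 →L[ℝ] ℝ)

/-- The exterior derivative: `(dl)_p(u, v)`. -/
noncomputable def extd (l : Form1) (p u v : E6) : ℝ := fderiv ℝ l p u v - fderiv ℝ l p v u

/-- `l 0`, `l 1` are smooth 1-forms on `U`, linearly independent at every point of `U`, and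
`D = ker (l 0) ∩ ker (l 1)` on `U`; so `D` is a (4,6)-distribution on `U`. -/
structure IsDefining (D : E6 → Submodule ℝ E6) (U : Set E6) (l : Fin 2 → Form1) : Prop where
  smooth : ∀ i, ContDiffOn ℝ ∞ (l i) U
  indep : ∀ p ∈ U, LinearIndependent ℝ (fun i => l i p)
  ker : ∀ p ∈ U, ∀ v, v ∈ D p ↔ l 0 p v = 0 ∧ l 1 p v = 0

/-- The 2-form `ψ ∘ L` on `D_p`, where `L(u, v) = [u, v] mod D` is the curvature tensor and
`ψ = s (l 0) + t (l 1)` is in the annihilator of `D_p`: it is the restriction of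
`-(s d(l 0) + t d(l 1))`. -/
noncomputable def curv (l : Fin 2 → Form1) (s t : ℝ) (p u v : E6) : ℝ :=
  -(s * extd (l 0) p u v + t * extd (l 1) p u v)

/-- The value of `(ψ ∘ L) ∧ (ψ ∘ L)` on the vectors `e 0, e 1, e 2, e 3`, for
`ψ = s (l 0) + t (l 1)`. -/
noncomputable def qForm (l : Fin 2 → Form1) (p : E6) (e : Fin 4 → E6) (s t : ℝ) : ℝ :=
  2 * (curv l s t p (e 0) (e 1) * curv l s t p (e 2) (e 3)
    - curv l s t p (e 0) (e 2) * curv l s t p (e 1) (e 3)
    + curv l s t p (e 0) (e 3) * curv l s t p (e 1) (e 2))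

/-- The germ of `D` at `p₀` is a hyperbolic (4,6)-distribution: at every point near `p₀` the quadratic
form `q_D(ψ) = (ψ ∘ L) ∧ (ψ ∘ L)` on the annihilator plane of `D_p`, with values in the line
`Λ⁴ D_p*` (trivialised by a basis `e` of `D_p`), has a `2 × 2` matrix with negative determinant. -/
def IsHyperbolicGerm (D : E6 → Submodule ℝ E6) (p₀ : E6) : Prop :=
  ∃ U, IsOpen U ∧ p₀ ∈ U ∧ ∃ l, IsDefining D U l ∧
    ∀ p ∈ U, ∀ e : Fin 4 → E6, LinearIndependent ℝ e → (∀ i, e i ∈ D p) →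
      qForm l p e 1 0 * qForm l p e 0 1
        - ((qForm l p e 1 1 - qForm l p e 1 0 - qForm l p e 0 1) / 2) ^ 2 < 0

/-- The germ of `D` at `p₀` admits Reeb directions. -/
def AdmitsReebDirections (D : E6 → Submodule ℝ E6) (p₀ : E6) : Prop :=
  ∃ U, IsOpen U ∧ p₀ ∈ U ∧ ∃ (l : Fin 2 → Form1) (Z : Fin 2 → E6 → E6),
    IsDefining D U l ∧ (∀ i, ContDiffOn ℝ ∞ (Z i) U) ∧
    ∀ p ∈ U,
      IsCompl (D p) (Submodule.span ℝ {Z 0 p, Z 1 p}) ∧
      (∀ i j, l i p (Z j p) = if i = j then 1 else 0) ∧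
      (∀ i j, ∀ u ∈ D p, extd (l j) p (Z i p) u = 0) ∧
      VectorField.lieBracket ℝ (Z 0) (Z 1) p = 0

/-- The germ of `D` at `p` and the germ of `D'` at `p'` are diffeomorphic. -/
def GermsDiffeomorphic (D : E6 → Submodule ℝ E6) (p : E6) (D' : E6 → Submodule ℝ E6)
    (p' : E6) : Prop :=
  ∃ Φ : OpenPartialHomeomorph E6 E6, p ∈ Φ.source ∧ Φ p = p' ∧ ContDiffOn ℝ ∞ Φ Φ.source ∧
    ContDiffOn ℝ ∞ Φ.symm Φ.target ∧
    ∀ x ∈ Φ.source, (D x).map (fderiv ℝ Φ x : E6 →ₗ[ℝ] E6) = D' (Φ x)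

/-- The coordinate 1-form `dxᵢ`. -/
noncomputable def dx (i : Fin 6) : E6 →L[ℝ] ℝ := ContinuousLinearMap.proj i

/-- The flat hyperbolic distribution `ker (dz₁ - y₁ dx₁) ∩ ker (dz₂ - y₂ dx₂)`. -/
noncomputable def flatD (p : E6) : Submodule ℝ E6 :=
  LinearMap.ker ((dx 2 - p 1 • dx 0 : E6 →L[ℝ] ℝ) : E6 →ₗ[ℝ] ℝ) ⊓
    LinearMap.ker ((dx 5 - p 4 • dx 3 : E6 →L[ℝ] ℝ) : E6 →ₗ[ℝ] ℝ)

/-- The distribution `ker (dz₁ - y₁ dx₁) ∩ ker (dz₂ - y₂ dx₂ - (y₁²/2) dx₁)`. -/
noncomputable def reebD (p : E6) : Submodule ℝ E6 :=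
  LinearMap.ker ((dx 2 - p 1 • dx 0 : E6 →L[ℝ] ℝ) : E6 →ₗ[ℝ] ℝ) ⊓
    LinearMap.ker ((dx 5 - p 4 • dx 3 - (p 1 ^ 2 / 2) • dx 0 : E6 →L[ℝ] ℝ) : E6 →ₗ[ℝ] ℝ)

lemma mem_flatD {p v : E6} : v ∈ flatD p ↔ v 2 = p 1 * v 0 ∧ v 5 = p 4 * v 3 := by
  simp [flatD, dx, sub_eq_zero]

lemma mem_reebD {p v : E6} :
    v ∈ reebD p ↔ v 2 = p 1 * v 0 ∧ v 5 = p 4 * v 3 + p 1 ^ 2 / 2 * v 0 := by
  simp only [reebD, dx, Submodule.mem_inf, LinearMap.mem_ker, ContinuousLinearMap.coe_coe,
    sub_apply, smul_apply, ContinuousLinearMap.proj_apply,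
    smul_eq_mul]
  constructor <;> rintro ⟨h1, h2⟩ <;> constructor <;> linarith

/-! ### The example is hyperbolic and admits Reeb directions -/

/-- The defining forms. -/
noncomputable def lE : Fin 2 → Form1 :=
  ![fun p => dx 2 - p 1 • dx 0, fun p => dx 5 - p 4 • dx 3 - (p 1 ^ 2 / 2) • dx 0]

lemma smooth_lE (i : Fin 2) : ContDiff ℝ ∞ (lE i) := by
  have hp : ∀ i : Fin 6, ContDiff ℝ ∞ (fun p : E6 => p i) := fun i => contDiff_apply ℝ ℝ i
  fin_cases i
  · exact contDiff_const.sub ((hp 1).smul contDiff_const)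
  · exact (contDiff_const.sub ((hp 4).smul contDiff_const)).sub
      ((((hp 1).pow 2).div_const 2).smul contDiff_const)

lemma hasFDerivAt_l0 (p : E6) :
    HasFDerivAt (lE 0) (-(dx 1).smulRight (dx 0)) p := by
  have h1 : HasFDerivAt (fun p : E6 => p 1) (dx 1) p := (dx 1).hasFDerivAt
  have := (h1.smul_const (dx 0)).const_sub (dx 2)
  exact this

lemma hasFDerivAt_l1 (p : E6) :
    HasFDerivAt (lE 1) (-(dx 4).smulRight (dx 3) - ((p 1) • dx 1).smulRight (dx 0)) p := by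
  have h1 : HasFDerivAt (fun p : E6 => p 1) (dx 1) p := (dx 1).hasFDerivAt
  have h4 : HasFDerivAt (fun p : E6 => p 4) (dx 4) p := (dx 4).hasFDerivAt
  have h2 : HasFDerivAt (fun p : E6 => p 1 ^ 2 / 2) ((p 1) • dx 1) p := by
    have := (h1.pow 2).const_mul (1 / 2)
    refine (this.congr_of_eventuallyEq ?_).congr_fderiv ?_
    · filter_upwards with q
      ring
    · ext v
      simp [dx]
      ring
  have := ((h4.smul_const (dx 3)).const_sub (dx 5)).sub (h2.smul_const (dx 0))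
  exact this

lemma extd_l0 (p u v : E6) : extd (lE 0) p u v = u 0 * v 1 - u 1 * v 0 := by
  rw [extd, (hasFDerivAt_l0 p).fderiv]
  simp [dx]
  ring

lemma extd_l1 (p u v : E6) : extd (lE 1) p u v =
    (u 3 * v 4 - u 4 * v 3) + p 1 * (u 0 * v 1 - u 1 * v 0) := by
  rw [extd, (hasFDerivAt_l1 p).fderiv]
  simp [dx]
  ring

lemma isDefining_lE : IsDefining reebD univ lE := by
  refine ⟨fun i => (smooth_lE i).contDiffOn, fun p _ => ?_, fun p _ v => ?_⟩
  · rw [Fintype.linearIndependent_iff]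
    intro g h i
    have h2 := DFunLike.congr_fun h (Pi.single 2 1)
    have h5 := DFunLike.congr_fun h (Pi.single 5 1)
    simp [lE, dx, Fin.sum_univ_two] at h2 h5
    fin_cases i
    · exact h2
    · exact h5
  · rw [mem_reebD]
    simp only [lE, dx, Matrix.cons_val_zero, Matrix.cons_val_one, sub_apply,
      smul_apply, ContinuousLinearMap.proj_apply, smul_eq_mul]
    constructor <;> rintro ⟨h1, h2⟩ <;> constructor <;> linarith

lemma curv_lE (s t : ℝ) (p u v : E6) : curv lE s t p u v =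
    -((s + t * p 1) * (u 0 * v 1 - u 1 * v 0) + t * (u 3 * v 4 - u 4 * v 3)) := by
  rw [curv, extd_l0, extd_l1]
  ring

/-- The components `0, 1, 3, 4` of four vectors. -/
def compMat (e : Fin 4 → E6) : Matrix (Fin 4) (Fin 4) ℝ :=
  Matrix.of fun i j => e i (![0, 1, 3, 4] j)

lemma det_compMat {p : E6} {e : Fin 4 → E6} (he : LinearIndependent ℝ e)
    (hD : ∀ i, e i ∈ reebD p) : (compMat e).det ≠ 0 := by
  intro h0
  obtain ⟨c, hc, h⟩ := Matrix.exists_vecMul_eq_zero_iff.2 h0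
  apply hc
  have hsum : ∑ i, c i • e i = 0 := by
    have hmem : ∑ i, c i • e i ∈ reebD p := Submodule.sum_mem _ fun i _ =>
      Submodule.smul_mem _ _ (hD i)
    obtain ⟨h2, h5⟩ := mem_reebD.1 hmem
    have hk : ∀ j : Fin 4, (∑ i, c i • e i) (![0, 1, 3, 4] j) = 0 := by
      intro j
      have := congrFun h j
      simp only [Matrix.vecMul, dotProduct, compMat, Matrix.of_apply, Pi.zero_apply] at this
      rw [Finset.sum_apply]
      simpa using this
    have k0 := hk 0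
    have k1 := hk 1
    have k3 := hk 2
    have k4 := hk 3
    simp only [Matrix.cons_val] at k0 k1 k3 k4
    rw [k0, mul_zero] at h2
    rw [k0, k3, mul_zero, mul_zero, add_zero] at h5
    ext i
    fin_cases i
    · exact k0
    · exact k1
    · exact h2
    · exact k3
    · exact k4
    · exact h5
  ext i
  exact Fintype.linearIndependent_iff.1 he c hsum i

lemma hyperbolic_reebD : IsHyperbolicGerm reebD 0 := by
  refine ⟨univ, isOpen_univ, mem_univ _, lE, isDefining_lE, fun p _ e he hD => ?_⟩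
  have hdet := det_compMat he hD
  have key : qForm lE p e 1 0 * qForm lE p e 0 1
        - ((qForm lE p e 1 1 - qForm lE p e 1 0 - qForm lE p e 0 1) / 2) ^ 2
        = -((compMat e).det) ^ 2 := by
    simp only [qForm, curv_lE, Matrix.det_succ_row_zero,
      Fin.sum_univ_succ, compMat, Matrix.submatrix_apply, Matrix.of_apply]
    simp [Fin.succAbove]
    ring
  rw [key]
  have := sq_pos_of_ne_zero hdet
  linarith

/-- The Reeb directions `∂_{z₁}`, `∂_{z₂}`. -/
noncomputable def ZE : Fin 2 → E6 → E6 := ![fun _ => Pi.single 2 1, fun _ => Pi.single 5 1]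

lemma admitsReeb_reebD : AdmitsReebDirections reebD 0 := by
  refine ⟨univ, isOpen_univ, mem_univ _, lE, ZE, isDefining_lE, ?_, fun p _ => ⟨?_, ?_, ?_, ?_⟩⟩
  · intro i
    fin_cases i
    · exact contDiff_const.contDiffOn
    · exact contDiff_const.contDiffOn
  · simp only [ZE, Matrix.cons_val_zero, Matrix.cons_val_one]
    refine ⟨?_, ?_⟩
    · rw [Submodule.disjoint_def]
      intro v hv hv'
      obtain ⟨a, b, rfl⟩ := Submodule.mem_span_pair.1 hv'
      obtain ⟨h2, h5⟩ := mem_reebD.1 hv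
      simp at h2 h5
      simp [h2, h5]
    · rw [codisjoint_iff, eq_top_iff]
      intro v _
      rw [Submodule.mem_sup]
      refine ⟨v - (v 2 - p 1 * v 0) • Pi.single 2 1
          - (v 5 - (p 4 * v 3 + p 1 ^ 2 / 2 * v 0)) • Pi.single 5 1, ?_,
        (v 2 - p 1 * v 0) • Pi.single 2 1
          + (v 5 - (p 4 * v 3 + p 1 ^ 2 / 2 * v 0)) • Pi.single 5 1, ?_, ?_⟩
      · rw [mem_reebD]
        simp
      · exact Submodule.mem_span_pair.2 ⟨_, _, rfl⟩
      · abel
  · intro i j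
    fin_cases i <;> fin_cases j <;> simp [lE, ZE, dx]
  · intro i j u _
    fin_cases i <;> fin_cases j <;> simp [ZE, extd_l0, extd_l1]
  · simp [ZE, VectorField.lieBracket]

/-! ### It is not flat -/

/-- The derivative of `g` along the vector field `X`. -/
noncomputable def dd (X : E6 → E6) (g : E6 → ℝ) (x : E6) : ℝ := fderiv ℝ g x (X x)

lemma fderiv_dd {O : Set E6} (hO : IsOpen O) {g : E6 → ℝ} (hg : ContDiffOn ℝ ∞ g O)
    {X : E6 → E6} (hX : Differentiable ℝ X) {x : E6} (hx : x ∈ O) (v : E6) :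
    fderiv ℝ (dd X g) x v = fderiv ℝ (fderiv ℝ g) x v (X x) + fderiv ℝ g x (fderiv ℝ X x v) := by
  have h1 : DifferentiableAt ℝ (fderiv ℝ g) x := by
    have := ((hg.contDiffAt (hO.mem_nhds hx)).fderiv_right (m := 1)
      (WithTop.coe_le_coe.2 le_top)).differentiableAt (by simp)
    exact this
  have h2 := h1.hasFDerivAt.clm_apply (hX x).hasFDerivAt
  rw [show dd X g = fun y => fderiv ℝ g y (X y) from rfl, h2.fderiv]
  simp [add_comm]

lemma symm_second {O : Set E6} (hO : IsOpen O) {g : E6 → ℝ} (hg : ContDiffOn ℝ ∞ g O)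
    {x : E6} (hx : x ∈ O) (u v : E6) :
    fderiv ℝ (fderiv ℝ g) x u v = fderiv ℝ (fderiv ℝ g) x v u :=
  ((hg.contDiffAt (hO.mem_nhds hx)).isSymmSndFDerivAt
    (by rw [minSmoothness_of_isRCLikeNormedField]; exact WithTop.coe_le_coe.2 le_top)) u v

/-- The commutator of the derivatives along two vector fields. -/
lemma dd_comm {O : Set E6} (hO : IsOpen O) {g : E6 → ℝ} (hg : ContDiffOn ℝ ∞ g O)
    {X Y : E6 → E6} (hX : Differentiable ℝ X) (hY : Differentiable ℝ Y) {x : E6} (hx : x ∈ O) :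
    fderiv ℝ (dd Y g) x (X x) - fderiv ℝ (dd X g) x (Y x)
      = fderiv ℝ g x (fderiv ℝ Y x (X x) - fderiv ℝ X x (Y x)) := by
  rw [fderiv_dd hO hg hX hx, fderiv_dd hO hg hY hx, symm_second hO hg hx (X x) (Y x), map_sub]
  ring

/-- If the derivatives along `X` and `Y` vanish on `O`, then so does the one along `[X, Y]`. -/
lemma dd_bracket_zero {O : Set E6} (hO : IsOpen O) {g : E6 → ℝ} (hg : ContDiffOn ℝ ∞ g O)
    {X Y : E6 → E6} (hX : Differentiable ℝ X) (hY : Differentiable ℝ Y)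
    (h1 : ∀ x ∈ O, fderiv ℝ g x (X x) = 0) (h2 : ∀ x ∈ O, fderiv ℝ g x (Y x) = 0) :
    ∀ x ∈ O, fderiv ℝ g x (fderiv ℝ Y x (X x) - fderiv ℝ X x (Y x)) = 0 := by
  intro x hx
  rw [← dd_comm hO hg hX hY hx]
  have e1 : dd X g =ᶠ[𝓝 x] fun _ => 0 := by
    filter_upwards [hO.mem_nhds hx] with y hy using h1 y hy
  have e2 : dd Y g =ᶠ[𝓝 x] fun _ => 0 := by
    filter_upwards [hO.mem_nhds hx] with y hy using h2 y hy
  rw [e1.fderiv_eq, e2.fderiv_eq]
  simp

/-- The frame of `reebD`. -/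
noncomputable def X1 : E6 → E6 := fun _ => Pi.single 1 1
noncomputable def X2 : E6 → E6 := fun p =>
  Pi.single 0 1 + p 1 • Pi.single 2 1 + (p 1 ^ 2 / 2) • Pi.single 5 1
noncomputable def X3 : E6 → E6 := fun _ => Pi.single 4 1
noncomputable def X4 : E6 → E6 := fun p => Pi.single 3 1 + p 4 • Pi.single 5 1
noncomputable def XW : E6 → E6 := fun p => Pi.single 2 1 + p 1 • Pi.single 5 1

lemma hasFDerivAt_X1 (p : E6) : HasFDerivAt X1 (0 : E6 →L[ℝ] E6) p := hasFDerivAt_const _ _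
lemma hasFDerivAt_X3 (p : E6) : HasFDerivAt X3 (0 : E6 →L[ℝ] E6) p := hasFDerivAt_const _ _

lemma hasFDerivAt_X2 (p : E6) : HasFDerivAt X2
    ((dx 1).smulRight (Pi.single 2 1) + ((p 1) • dx 1).smulRight (Pi.single 5 1)) p := by
  have h1 : HasFDerivAt (fun p : E6 => p 1) (dx 1) p := (dx 1).hasFDerivAt
  have h2 : HasFDerivAt (fun p : E6 => p 1 ^ 2 / 2) ((p 1) • dx 1) p := by
    have := (h1.pow 2).const_mul (1 / 2)
    refine (this.congr_of_eventuallyEq ?_).congr_fderiv ?_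
    · filter_upwards with q
      ring
    · ext v
      simp [dx]
      ring
  exact ((h1.smul_const (Pi.single 2 1 : E6)).const_add (Pi.single 0 1)).add
    (h2.smul_const (Pi.single 5 1 : E6))

lemma hasFDerivAt_X4 (p : E6) : HasFDerivAt X4 ((dx 4).smulRight (Pi.single 5 1)) p := by
  have h4 : HasFDerivAt (fun p : E6 => p 4) (dx 4) p := (dx 4).hasFDerivAt
  exact (h4.smul_const (Pi.single 5 1 : E6)).const_add (Pi.single 3 1)

lemma hasFDerivAt_XW (p : E6) : HasFDerivAt XW ((dx 1).smulRight (Pi.single 5 1)) p := by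
  have h1 : HasFDerivAt (fun p : E6 => p 1) (dx 1) p := (dx 1).hasFDerivAt
  exact (h1.smul_const (Pi.single 5 1 : E6)).const_add (Pi.single 2 1)

/-- If the derivatives of `g` along `X1` and `X2` vanish on `O`, so do those along `XW` and
`∂_{z₂}`. -/
lemma kill {O : Set E6} (hO : IsOpen O) {g : E6 → ℝ} (hg : ContDiffOn ℝ ∞ g O)
    (h1 : ∀ x ∈ O, fderiv ℝ g x (X1 x) = 0) (h2 : ∀ x ∈ O, fderiv ℝ g x (X2 x) = 0) :
    (∀ x ∈ O, fderiv ℝ g x (XW x) = 0) ∧ ∀ x ∈ O, fderiv ℝ g x (Pi.single 5 1) = 0 := by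
  have d1 : Differentiable ℝ X1 := fun p => (hasFDerivAt_X1 p).differentiableAt
  have d2 : Differentiable ℝ X2 := fun p => (hasFDerivAt_X2 p).differentiableAt
  have dW : Differentiable ℝ XW := fun p => (hasFDerivAt_XW p).differentiableAt
  have hW : ∀ x ∈ O, fderiv ℝ g x (XW x) = 0 := by
    intro x hx
    have := dd_bracket_zero hO hg d1 d2 h1 h2 x hx
    rw [(hasFDerivAt_X2 x).fderiv, (hasFDerivAt_X1 x).fderiv] at this
    convert this using 2
    simp [XW, X1, dx]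
  refine ⟨hW, fun x hx => ?_⟩
  have := dd_bracket_zero hO hg d1 dW h1 hW x hx
  rw [(hasFDerivAt_XW x).fderiv, (hasFDerivAt_X1 x).fderiv] at this
  convert this using 2
  simp [X1, dx]

/-- The relation which expresses that the pulled back curvature vanishes on commuting fields. -/
lemma rel {O : Set E6} (hO : IsOpen O) {f g h : E6 → ℝ} (hf : ContDiffOn ℝ ∞ f O)
    (hg : ContDiffOn ℝ ∞ g O) (hh : ContDiffOn ℝ ∞ h O) {X Y : E6 → E6}
    (hX : Differentiable ℝ X) (hY : Differentiable ℝ Y)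
    (hXY : ∀ x, fderiv ℝ Y x (X x) - fderiv ℝ X x (Y x) = 0)
    (h1 : ∀ x ∈ O, dd X f x = g x * dd X h x) (h2 : ∀ x ∈ O, dd Y f x = g x * dd Y h x)
    {x : E6} (hx : x ∈ O) : dd X g x * dd Y h x = dd Y g x * dd X h x := by
  have cf := dd_comm hO hf hX hY hx
  have ch := dd_comm hO hh hX hY hx
  rw [hXY, map_zero] at cf ch
  have dg : DifferentiableAt ℝ g x := (hg.contDiffAt (hO.mem_nhds hx)).differentiableAt (by simp)
  have key : ∀ Z : E6 → E6, Differentiable ℝ Z → (∀ x ∈ O, dd Z f x = g x * dd Z h x) →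
      ∀ v, fderiv ℝ (dd Z f) x v = fderiv ℝ g x v * dd Z h x + g x * fderiv ℝ (dd Z h) x v := by
    intro Z hZ hZ' v
    have e : dd Z f =ᶠ[𝓝 x] fun y => g y * dd Z h y := by
      filter_upwards [hO.mem_nhds hx] with y hy using hZ' y hy
    have dh : DifferentiableAt ℝ (dd Z h) x := by
      have h3 : DifferentiableAt ℝ (fderiv ℝ h) x :=
        ((hh.contDiffAt (hO.mem_nhds hx)).fderiv_right (m := 1)
          (WithTop.coe_le_coe.2 le_top)).differentiableAt (by simp)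
      exact (h3.hasFDerivAt.clm_apply (hZ x).hasFDerivAt).differentiableAt
    rw [e.fderiv_eq, (dg.hasFDerivAt.fun_mul dh.hasFDerivAt).fderiv]
    simp
    ring
  rw [key Y hY h2, key X hX h1] at cf
  have e1 : dd X g x = fderiv ℝ g x (X x) := rfl
  have e2 : dd Y g x = fderiv ℝ g x (Y x) := rfl
  rw [e1, e2]
  have : g x * (fderiv ℝ (dd Y h) x (X x) - fderiv ℝ (dd X h) x (Y x)) = 0 := by rw [ch, mul_zero]
  linarith

/-- Linear algebra: two complementary pairs. -/
lemma pairs {p q r s : Fin 4 → ℝ}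
    (a13 : p 0 * q 2 = q 0 * p 2) (a14 : p 0 * q 3 = q 0 * p 3)
    (a23 : p 1 * q 2 = q 1 * p 2) (a24 : p 1 * q 3 = q 1 * p 3)
    (b13 : r 0 * s 2 = s 0 * r 2) (b14 : r 0 * s 3 = s 0 * r 3)
    (b23 : r 1 * s 2 = s 1 * r 2) (b24 : r 1 * s 3 = s 1 * r 3)
    (hdet : (Matrix.of fun i : Fin 4 => ![p i, q i, r i, s i]).det ≠ 0) :
    (r 0 = 0 ∧ s 0 = 0 ∧ r 1 = 0 ∧ s 1 = 0) ∨ (p 0 = 0 ∧ q 0 = 0 ∧ p 1 = 0 ∧ q 1 = 0) := by
  have hd : (Matrix.of fun i : Fin 4 => ![p i, q i, r i, s i]).det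
      = (p 0 * q 1 - q 0 * p 1) * (r 2 * s 3 - s 2 * r 3)
        + (p 2 * q 3 - q 2 * p 3) * (r 0 * s 1 - s 0 * r 1) := by
    have : (Matrix.of fun i : Fin 4 => ![p i, q i, r i, s i]).det
      = (p 0 * q 1 - q 0 * p 1) * (r 2 * s 3 - s 2 * r 3)
        - (p 0 * q 2 - q 0 * p 2) * (r 1 * s 3 - s 1 * r 3)
        + (p 0 * q 3 - q 0 * p 3) * (r 1 * s 2 - s 1 * r 2)
        + (p 1 * q 2 - q 1 * p 2) * (r 0 * s 3 - s 0 * r 3)
        - (p 1 * q 3 - q 1 * p 3) * (r 0 * s 2 - s 0 * r 2)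
        + (p 2 * q 3 - q 2 * p 3) * (r 0 * s 1 - s 0 * r 1) := by
      simp only [Matrix.det_succ_row_zero, Fin.sum_univ_succ, Matrix.submatrix_apply,
        Matrix.of_apply]
      simp [Fin.succAbove]
      ring
    rw [this, a13, a14, a23, a24]
    ring
  rw [hd] at hdet
  by_cases h : r 2 * s 3 - s 2 * r 3 = 0
  · right
    have h' : p 2 * q 3 - q 2 * p 3 ≠ 0 := by
      intro h0
      rw [h, h0] at hdet
      simp at hdet
    refine ⟨?_, ?_, ?_, ?_⟩ <;> refine (mul_eq_zero.1 ?_).resolve_right h'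
    · linear_combination p 2 * a14 - p 3 * a13
    · linear_combination q 2 * a14 - q 3 * a13
    · linear_combination p 2 * a24 - p 3 * a23
    · linear_combination q 2 * a24 - q 3 * a23
  · left
    refine ⟨?_, ?_, ?_, ?_⟩ <;> refine (mul_eq_zero.1 ?_).resolve_right h
    · linear_combination r 2 * b14 - r 3 * b13
    · linear_combination s 2 * b14 - s 3 * b13
    · linear_combination r 2 * b24 - r 3 * b23
    · linear_combination s 2 * b24 - s 3 * b23

lemma no_case {J : E6 →L[ℝ] E6} (hJ : ∀ v, J v = 0 → v = 0) {v : Fin 4 → E6}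
    (hv : LinearIndependent ℝ v) (σ τ : Fin 3 → Fin 6) (hστ : ∀ i, i ∈ range σ ∨ i ∈ range τ)
    (h : ∀ i k, J (v i) (τ k) = 0) : False := by
  let T : (Fin 4 → ℝ) →ₗ[ℝ] (Fin 3 → ℝ) :=
    { toFun := fun c k => J (∑ i, c i • v i) (σ k)
      map_add' := by
        intro c d
        ext k
        simp [add_smul, Finset.sum_add_distrib]
      map_smul' := by
        intro a c
        ext k
        simp [mul_smul, ← Finset.smul_sum, Finset.mul_sum, Finset.sum_apply] }
  have hT : Function.Injective T := by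
    rw [← LinearMap.ker_eq_bot, LinearMap.ker_eq_bot']
    intro c hc
    have : J (∑ i, c i • v i) = 0 := by
      ext j
      rcases hστ j with ⟨k, rfl⟩ | ⟨k, rfl⟩
      · exact congrFun hc k
      · simp [map_sum, h]
    have := hJ _ this
    ext i
    exact Fintype.linearIndependent_iff.1 hv c this i
  have := LinearMap.finrank_le_finrank_of_injective hT
  simp at this

lemma X_mem (x : E6) : X1 x ∈ reebD x ∧ X2 x ∈ reebD x ∧ X3 x ∈ reebD x ∧ X4 x ∈ reebD x := by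
  simp [mem_reebD, X1, X2, X3, X4]

lemma indep_X (x : E6) : LinearIndependent ℝ ![X1 x, X2 x, X3 x, X4 x] := by
  rw [Fintype.linearIndependent_iff]
  intro c h i
  have h0 := congrFun h 0
  have h1 := congrFun h 1
  have h3 := congrFun h 3
  have h4 := congrFun h 4
  simp [Fin.sum_univ_succ, X1, X2, X3, X4] at h0 h1 h3 h4
  fin_cases i
  · exact h1
  · exact h0
  · exact h4
  · exact h3

lemma indep_W (x : E6) : LinearIndependent ℝ ![X1 x, X2 x, XW x, (Pi.single 5 1 : E6)] := by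
  rw [Fintype.linearIndependent_iff]
  intro c h i
  have h0 := congrFun h 0
  have h1 := congrFun h 1
  have h2 := congrFun h 2
  have h5 := congrFun h 5
  simp [Fin.sum_univ_succ, X1, X2, XW] at h0 h1 h2 h5
  have c1 : c 1 = 0 := h0
  have c2 : c 2 = 0 := by simpa [c1] using h2
  fin_cases i
  · exact h1
  · exact h0
  · exact c2
  · simpa [c1, c2] using h5

lemma not_flat : ¬ GermsDiffeomorphic reebD 0 flatD 0 := by
  rintro ⟨Φ, h0, -, hΦ, hΨ, hD⟩
  have hO := Φ.open_source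
  have hg : ∀ k : Fin 6, ContDiffOn ℝ ∞ (fun x => Φ x k) Φ.source := fun k =>
    (contDiff_apply ℝ ℝ k).comp_contDiffOn hΦ
  have hdiff : ∀ x ∈ Φ.source, DifferentiableAt ℝ Φ x := fun x hx =>
    (hΦ.contDiffAt (hO.mem_nhds hx)).differentiableAt (by simp)
  have hcomp : ∀ x ∈ Φ.source, ∀ v k,
      fderiv ℝ (fun x => Φ x k) x v = fderiv ℝ Φ x v k := by
    intro x hx v k
    have := (hasFDerivAt_pi'.1 (hdiff x hx).hasFDerivAt) k
    rw [this.fderiv]
    rfl
  have hinj : ∀ x ∈ Φ.source, ∀ v, fderiv ℝ Φ x v = 0 → v = 0 := by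
    intro x hx v hv
    have h1 : DifferentiableAt ℝ Φ.symm (Φ x) :=
      (hΨ.contDiffAt (Φ.open_target.mem_nhds (Φ.map_source hx))).differentiableAt (by simp)
    have h2 := h1.hasFDerivAt.comp x (hdiff x hx).hasFDerivAt
    have h3 : HasFDerivAt (Φ.symm ∘ Φ) (ContinuousLinearMap.id ℝ E6) x := by
      refine (hasFDerivAt_id x).congr_of_eventuallyEq ?_
      filter_upwards [hO.mem_nhds hx] with y hy using Φ.left_inv hy
    have h4 := DFunLike.congr_fun (h2.unique h3) v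
    simp only [ContinuousLinearMap.comp_apply, hv, map_zero, ContinuousLinearMap.id_apply] at h4
    exact h4.symm
  -- the two relations on `D`
  have hrel : ∀ x ∈ Φ.source, ∀ v ∈ reebD x,
      fderiv ℝ Φ x v 2 = Φ x 1 * fderiv ℝ Φ x v 0 ∧ fderiv ℝ Φ x v 5 = Φ x 4 * fderiv ℝ Φ x v 3 := by
    intro x hx v hv
    have : fderiv ℝ Φ x v ∈ flatD (Φ x) := by
      rw [← hD x hx]
      exact Submodule.mem_map_of_mem hv
    exact mem_flatD.1 this
  have hXr : ∀ X : E6 → E6, (∀ x, X x ∈ reebD x) → (∀ x ∈ Φ.source,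
      dd X (fun x => Φ x 2) x = Φ x 1 * dd X (fun x => Φ x 0) x) ∧ (∀ x ∈ Φ.source,
      dd X (fun x => Φ x 5) x = Φ x 4 * dd X (fun x => Φ x 3) x) := by
    intro X hX
    constructor <;> intro x hx <;> simp only [dd, hcomp x hx]
    · exact (hrel x hx _ (hX x)).1
    · exact (hrel x hx _ (hX x)).2
  have d1 : Differentiable ℝ X1 := fun p => (hasFDerivAt_X1 p).differentiableAt
  have d2 : Differentiable ℝ X2 := fun p => (hasFDerivAt_X2 p).differentiableAt
  have d3 : Differentiable ℝ X3 := fun p => (hasFDerivAt_X3 p).differentiableAt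
  have d4 : Differentiable ℝ X4 := fun p => (hasFDerivAt_X4 p).differentiableAt
  have r1 := hXr X1 fun x => (X_mem x).1
  have r2 := hXr X2 fun x => (X_mem x).2.1
  have r3 := hXr X3 fun x => (X_mem x).2.2.1
  have r4 := hXr X4 fun x => (X_mem x).2.2.2
  have c13 : ∀ x, fderiv ℝ X3 x (X1 x) - fderiv ℝ X1 x (X3 x) = 0 := by
    intro x
    rw [(hasFDerivAt_X1 x).fderiv, (hasFDerivAt_X3 x).fderiv]
    simp
  have c14 : ∀ x, fderiv ℝ X4 x (X1 x) - fderiv ℝ X1 x (X4 x) = 0 := by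
    intro x
    rw [(hasFDerivAt_X1 x).fderiv, (hasFDerivAt_X4 x).fderiv]
    simp [X1, dx]
  have c23 : ∀ x, fderiv ℝ X3 x (X2 x) - fderiv ℝ X2 x (X3 x) = 0 := by
    intro x
    rw [(hasFDerivAt_X2 x).fderiv, (hasFDerivAt_X3 x).fderiv]
    simp [X3, dx]
  have c24 : ∀ x, fderiv ℝ X4 x (X2 x) - fderiv ℝ X2 x (X4 x) = 0 := by
    intro x
    rw [(hasFDerivAt_X2 x).fderiv, (hasFDerivAt_X4 x).fderiv]
    simp [X2, X4, dx]
  -- at every point one of the two cases holds
  have hcase : ∀ x ∈ Φ.source,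
      (dd X1 (fun x => Φ x 3) x = 0 ∧ dd X1 (fun x => Φ x 4) x = 0 ∧
        dd X2 (fun x => Φ x 3) x = 0 ∧ dd X2 (fun x => Φ x 4) x = 0) ∨
      (dd X1 (fun x => Φ x 0) x = 0 ∧ dd X1 (fun x => Φ x 1) x = 0 ∧
        dd X2 (fun x => Φ x 0) x = 0 ∧ dd X2 (fun x => Φ x 1) x = 0) := by
    intro x hx
    have e13 := rel hO (hg 2) (hg 1) (hg 0) d1 d3 c13 r1.1 r3.1 hx
    have e14 := rel hO (hg 2) (hg 1) (hg 0) d1 d4 c14 r1.1 r4.1 hx
    have e23 := rel hO (hg 2) (hg 1) (hg 0) d2 d3 c23 r2.1 r3.1 hx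
    have e24 := rel hO (hg 2) (hg 1) (hg 0) d2 d4 c24 r2.1 r4.1 hx
    have f13 := rel hO (hg 5) (hg 4) (hg 3) d1 d3 c13 r1.2 r3.2 hx
    have f14 := rel hO (hg 5) (hg 4) (hg 3) d1 d4 c14 r1.2 r4.2 hx
    have f23 := rel hO (hg 5) (hg 4) (hg 3) d2 d3 c23 r2.2 r3.2 hx
    have f24 := rel hO (hg 5) (hg 4) (hg 3) d2 d4 c24 r2.2 r4.2 hx
    let Y : Fin 4 → E6 := ![X1 x, X2 x, X3 x, X4 x]
    have hY : LinearIndependent ℝ Y := indep_X x
    have hYD : ∀ i, Y i ∈ reebD x := by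
      obtain ⟨m1, m2, m3, m4⟩ := X_mem x
      intro i
      fin_cases i
      · exact m1
      · exact m2
      · exact m3
      · exact m4
    refine pairs (p := fun i => fderiv ℝ (fun x => Φ x 0) x (Y i))
      (q := fun i => fderiv ℝ (fun x => Φ x 1) x (Y i))
      (r := fun i => fderiv ℝ (fun x => Φ x 3) x (Y i))
      (s := fun i => fderiv ℝ (fun x => Φ x 4) x (Y i)) ?_ ?_ ?_ ?_ ?_ ?_ ?_ ?_ ?_
    · change dd X1 (fun x => Φ x 0) x * dd X3 (fun x => Φ x 1) x
          = dd X1 (fun x => Φ x 1) x * dd X3 (fun x => Φ x 0) x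
      linarith
    · change dd X1 (fun x => Φ x 0) x * dd X4 (fun x => Φ x 1) x
          = dd X1 (fun x => Φ x 1) x * dd X4 (fun x => Φ x 0) x
      linarith
    · change dd X2 (fun x => Φ x 0) x * dd X3 (fun x => Φ x 1) x
          = dd X2 (fun x => Φ x 1) x * dd X3 (fun x => Φ x 0) x
      linarith
    · change dd X2 (fun x => Φ x 0) x * dd X4 (fun x => Φ x 1) x
          = dd X2 (fun x => Φ x 1) x * dd X4 (fun x => Φ x 0) x
      linarith
    · change dd X1 (fun x => Φ x 3) x * dd X3 (fun x => Φ x 4) x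
          = dd X1 (fun x => Φ x 4) x * dd X3 (fun x => Φ x 3) x
      linarith
    · change dd X1 (fun x => Φ x 3) x * dd X4 (fun x => Φ x 4) x
          = dd X1 (fun x => Φ x 4) x * dd X4 (fun x => Φ x 3) x
      linarith
    · change dd X2 (fun x => Φ x 3) x * dd X3 (fun x => Φ x 4) x
          = dd X2 (fun x => Φ x 4) x * dd X3 (fun x => Φ x 3) x
      linarith
    · change dd X2 (fun x => Φ x 3) x * dd X4 (fun x => Φ x 4) x
          = dd X2 (fun x => Φ x 4) x * dd X4 (fun x => Φ x 3) x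
      linarith
    · intro hdet
      obtain ⟨c, hc, h⟩ := Matrix.exists_vecMul_eq_zero_iff.2 hdet
      apply hc
      have hk : ∀ j, ∑ i, c i * ![fderiv ℝ Φ x (Y i) 0, fderiv ℝ Φ x (Y i) 1,
          fderiv ℝ Φ x (Y i) 3, fderiv ℝ Φ x (Y i) 4] j = 0 := by
        intro j
        have := congrFun h j
        simp only [Matrix.vecMul, dotProduct, Matrix.of_apply, Pi.zero_apply, hcomp x hx] at this
        exact this
      have hmem : ∑ i, c i • Y i ∈ reebD x := Submodule.sum_mem _ fun i _ =>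
        Submodule.smul_mem _ _ (hYD i)
      obtain ⟨k2, k5⟩ := hrel x hx _ hmem
      have hs : ∀ j, fderiv ℝ Φ x (∑ i, c i • Y i) j = ∑ i, c i * fderiv ℝ Φ x (Y i) j := by
        intro j
        rw [map_sum, Finset.sum_apply]
        simp
      have k0 := hk 0
      have k1 := hk 1
      have k3 := hk 2
      have k4 := hk 3
      simp only [Matrix.cons_val] at k0 k1 k3 k4
      rw [← hs] at k0 k1 k3 k4
      rw [k0, mul_zero] at k2
      rw [k3, mul_zero] at k5
      have hz : ∑ i, c i • Y i = 0 := by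
        apply hinj x hx
        ext j
        fin_cases j
        · exact k0
        · exact k1
        · exact k2
        · exact k3
        · exact k4
        · exact k5
      ext i
      exact Fintype.linearIndependent_iff.1 hY c hz i
  -- a case that holds on an open set is impossible
  have hend : ∀ (x : E6) (O : Set E6) (τ σ : Fin 3 → Fin 6), IsOpen O → x ∈ O → O ⊆ Φ.source →
      (∀ i, i ∈ range σ ∨ i ∈ range τ) →
      (∀ y ∈ O, ∀ k, dd X1 (fun x => Φ x (τ k)) y = 0 ∧ dd X2 (fun x => Φ x (τ k)) y = 0) →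
      False := by
    intro x O τ σ hO' hx hsub hστ hzero
    refine no_case (hinj x (hsub hx)) (indep_W x) σ τ hστ fun i k => ?_
    have hgk := (hg (τ k)).mono hsub
    have h1 : ∀ y ∈ O, fderiv ℝ (fun x => Φ x (τ k)) y (X1 y) = 0 := fun y hy => (hzero y hy k).1
    have h2 : ∀ y ∈ O, fderiv ℝ (fun x => Φ x (τ k)) y (X2 y) = 0 := fun y hy => (hzero y hy k).2
    obtain ⟨h3, h4⟩ := kill hO' hgk h1 h2
    rw [← hcomp x (hsub hx)]
    fin_cases i
    · exact h1 x hx
    · exact h2 x hx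
    · exact h3 x hx
    · exact h4 x hx
  by_cases hA : ∀ x ∈ Φ.source, (dd X1 (fun x => Φ x 3) x = 0 ∧ dd X1 (fun x => Φ x 4) x = 0 ∧
        dd X2 (fun x => Φ x 3) x = 0 ∧ dd X2 (fun x => Φ x 4) x = 0)
  · refine hend 0 Φ.source ![3, 4, 5] ![0, 1, 2] hO h0 subset_rfl (by decide) ?_
    intro y hy k
    obtain ⟨h1, h2, h3, h4⟩ := hA y hy
    fin_cases k
    · exact ⟨h1, h3⟩
    · exact ⟨h2, h4⟩
    · exact ⟨(r1.2 y hy).trans (by rw [h1, mul_zero]), (r2.2 y hy).trans (by rw [h3, mul_zero])⟩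
  · push Not at hA
    obtain ⟨x, hx, hne⟩ := hA
    have hcont : ∀ (X : E6 → E6) (k : Fin 6), Differentiable ℝ X →
        ContinuousOn (dd X (fun x => Φ x k)) Φ.source := by
      intro X k hX
      have h1 : ContinuousOn (fderiv ℝ (fun x => Φ x k)) Φ.source :=
        (hg k).continuousOn_fderiv_of_isOpen hO (by simp)
      exact h1.clm_apply hX.continuous.continuousOn
    have hev : ∀ᶠ y in 𝓝 x, y ∈ Φ.source ∧ ¬ (dd X1 (fun x => Φ x 3) y = 0 ∧
        dd X1 (fun x => Φ x 4) y = 0 ∧ dd X2 (fun x => Φ x 3) y = 0 ∧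
        dd X2 (fun x => Φ x 4) y = 0) := by
      have hc := fun X k hX => (hcont X k hX).continuousAt (hO.mem_nhds hx)
      have key : ∀ (X : E6 → E6) (k : Fin 6), Differentiable ℝ X →
          dd X (fun x => Φ x k) x ≠ 0 → ∀ᶠ y in 𝓝 x, dd X (fun x => Φ x k) y ≠ 0 :=
        fun X k hX hne => (hc X k hX).eventually_ne hne
      refine Filter.Eventually.and (hO.mem_nhds hx : ∀ᶠ y in 𝓝 x, y ∈ Φ.source) ?_
      by_cases n1 : dd X1 (fun x => Φ x 3) x = 0
      · by_cases n2 : dd X1 (fun x => Φ x 4) x = 0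
        · by_cases n3 : dd X2 (fun x => Φ x 3) x = 0
          · filter_upwards [key X2 4 d2 (hne n1 n2 n3)] with y hy h using hy h.2.2.2
          · filter_upwards [key X2 3 d2 n3] with y hy h using hy h.2.2.1
        · filter_upwards [key X1 4 d1 n2] with y hy h using hy h.2.1
      · filter_upwards [key X1 3 d1 n1] with y hy h using hy h.1
    obtain ⟨O, hOsub, hOo, hxO⟩ := mem_nhds_iff.1 hev
    refine hend x O ![0, 1, 2] ![3, 4, 5] hOo hxO (fun y hy => (hOsub hy).1) (by decide) ?_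
    intro y hy k
    obtain ⟨hys, hyn⟩ := hOsub hy
    obtain ⟨h1, h2, h3, h4⟩ := (hcase y hys).resolve_left hyn
    fin_cases k
    · exact ⟨h1, h3⟩
    · exact ⟨h2, h4⟩
    · exact ⟨(r1.1 y hys).trans (by rw [h1, mul_zero]), (r2.1 y hys).trans (by rw [h3, mul_zero])⟩

/-- There is a hyperbolic (4,6)-distribution germ which admits Reeb directions and is not
diffeomorphic to the flat hyperbolic germ. -/
theorem result : ∃ D : E6 → Submodule ℝ E6,
    IsHyperbolicGerm D 0 ∧ AdmitsReebDirections D 0 ∧ ¬ GermsDiffeomorphic D 0 flatD 0 :=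
  ⟨reebD, hyperbolic_reebD, admitsReeb_reebD, not_flat⟩

end Pool.Agent.Results.MP_08c0df_gt.ReebNotFlat
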